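import Pool.Agent.helper74.NL.Spec

/-!
# Project nl: (MP_70a088_an): module NB, preimages avoid null sets
-/

set_option autoImplicit false

open Complex Metric Set Filter Topology MeasureTheory MPS Pool.Agent.helper98.ILF

noncomputable section

namespace NLF

lemma NB_rt (n : ℕ) : Measurable (rt n) := by
  unfold rt
  exact measurable_id.pow_const _

lemma NB_fd (n : ℕ) : Measurable (fd n) := by
  unfold fd
  exact measurable_const.mul (measurable_id.pow_const _)

theorem NB (hMCV : MCV_stmt) : NB_stmt := by
  intro n c hn N hN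
  set N' : Set ℂ := toMeasurable volume N with hN'
  have hmN' : MeasurableSet N' := measurableSet_toMeasurable _ _
  have hvN' : volume N' = 0 := by rw [hN', measure_toMeasurable, hN]
  let F : ℂ → ENNReal := N'.indicator (fun _ => 1)
  have hF : Measurable F := measurable_const.indicator hmN'
  have h := hMCV n c hn F univ hF MeasurableSet.univ
  have h0 : ∫⁻ y in {y : ℂ | y ^ n + c ∈ (univ : Set ℂ)}, F y = 0 := by
    have e : {y : ℂ | y ^ n + c ∈ (univ : Set ℂ)} = univ := by simp
    rw [e, Measure.restrict_univ, lintegral_indicator hmN', setLIntegral_one, hvN']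
  rw [h0, Measure.restrict_univ] at h
  have hy : ∀ j : ℕ, Measurable (fun z : ℂ => om n ^ j * rt n (z - c)) := fun j =>
    measurable_const.mul ((NB_rt n).comp (measurable_id.sub_const c))
  have hmeas : Measurable (fun z : ℂ => ∑ j ∈ Finset.range n,
      F (om n ^ j * rt n (z - c)) / ENNReal.ofReal (‖fd n (om n ^ j * rt n (z - c))‖ ^ 2)) := by
    refine Finset.measurable_sum _ (fun j _ => ?_)
    exact (hF.comp (hy j)).div ((((NB_fd n).comp (hy j)).norm.pow_const 2).ennreal_ofReal)
  rw [lintegral_eq_zero_iff hmeas] at h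
  filter_upwards [h] with z hz j hj hmem
  have hz' : ∑ j ∈ Finset.range n, F (om n ^ j * rt n (z - c)) /
      ENNReal.ofReal (‖fd n (om n ^ j * rt n (z - c))‖ ^ 2) = 0 := hz
  have h1 := Finset.sum_eq_zero_iff.1 hz' j (Finset.mem_range.2 hj)
  rcases ENNReal.div_eq_zero_iff.1 h1 with h2 | h2
  · have hm : om n ^ j * rt n (z - c) ∈ N' := subset_toMeasurable _ _ hmem
    have : F (om n ^ j * rt n (z - c)) = 1 := Set.indicator_of_mem hm _
    rw [this] at h2
    exact one_ne_zero h2
  · exact ENNReal.ofReal_ne_top h2

end NLF
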